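import Pool.Agent.helper42.ML.H5
import Pool.Agent.helper42.ML.F5
import Pool.Agent.helper1.ML.H6

/-!
# The Morse local-to-global property for polynomially growing free-by-cyclic groups

`UPG F φ` is the smallest class of automorphisms of groups containing the automorphism of the
trivial group and closed under isomorphism, composition with inner automorphisms, free products,
and extensions to `A * ⟨x⟩` with `x ↦ a x b`, `a, b ∈ A`.  By a theorem of Bestvina, Feighn and
Handel an automorphism of a free group of finite rank is polynomially growing if and only if one of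
its positive powers belongs to this class.

The theorem: if `φ ^ k` (with `k ≥ 1`) belongs to the class, then every metric space which is
quasi-isometric to the mapping torus `F ⋊_φ ℤ` (with a word metric) has the Morse local-to-global
property.
-/

namespace Pool.Agent.Results.MP_323ab2_al.PolyGrowth

open Pool.Agent.helper42.ML

theorem result {F : Type} [Group F] (φ : MulAut F) (k : ℕ) (hk : 1 ≤ k) (hφ : UPG F (φ ^ k))
    (S : Set (MT F φ)) (hS : S.Finite) (hgen : Subgroup.closure S = ⊤)
    {X : Type*} [MetricSpace X] (f : X → MT F φ) (Q : ℝ) (hQ : 0 < Q) (hf : IsQI (cay S) f Q) :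
    MLTG X := by
  have hT := UPG_tower F (φ ^ k) hφ
  obtain ⟨S', hS', hgen', -⟩ := hT.gen
  obtain ⟨f', Q', hQ', hf'⟩ := MT_power φ k hk S hS hgen S' hS' hgen' f Q hQ hf
  exact mltg_of_LGT (cay_connected hgen') (hT.lg S' hS' hgen') hf' hQ'

end Pool.Agent.Results.MP_323ab2_al.PolyGrowth
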